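import Mathlib

/-! MP_25dd1e_co: the case `c = 2 b`, `v_2(k) > v_2(b)`: `N(b, 2b, k) = b + k - gcd(b, k)`. -/

namespace Pool.Agent.Results.MP_25dd1e_co.CaseTwoB

/-- the terms `a 0, …, a n` form an acceptable sequence for `b, c` -/
def Acceptable (b c n : ℕ) (a : ℕ → ℤ) : Prop :=
  a 0 = 0 ∧ (∀ i, i < n → a i < a (i + 1)) ∧ ∀ i, i + b ≤ n → a (i + b) ≤ a i + c

/-- the terms `a 0, …, a n` hit `k` -/
def Hits (k n : ℕ) (a : ℕ → ℤ) : Prop :=
  ∃ i j, i < j ∧ j ≤ n ∧ a j = a i + k

/-- every acceptable sequence `a 0, …, a n` hits `k` -/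
def AllHit (b c k n : ℕ) : Prop := ∀ a : ℕ → ℤ, Acceptable b c n a → Hits k n a

/-! ### upper bound -/

theorem mono_of {n : ℕ} {a : ℕ → ℤ} (h : ∀ i, i < n → a i < a (i + 1)) :
    ∀ j i, i < j → j ≤ n → a i < a j := by
  intro j
  induction j with
  | zero => intro i hi; omega
  | succ j ih =>
    intro i hi hj
    have h1 := h j (by omega)
    rcases Nat.lt_or_ge i j with h2 | h2
    · exact lt_trans (ih i h2 (by omega)) h1
    · have : i = j := by omega
      rw [this]; exact h1

theorem big_step {k n : ℕ} (hk : 1 ≤ k) {a : ℕ → ℤ} (hm : ∀ i, i < n → a i < a (i + 1))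
    (hh : ¬ Hits k n a) (i : ℕ) (hi : i + k ≤ n) : a i + 2 * k ≤ a (i + k) := by
  by_contra hlt
  push Not at hlt
  apply hh
  have hk' : (0 : ℤ) < k := by exact_mod_cast hk
  obtain ⟨x, hx, y, hy, hxy, he⟩ := Finset.exists_ne_map_eq_of_card_lt_of_maps_to
    (s := Finset.range (k + 1)) (t := Finset.Ico (0 : ℤ) k)
    (f := fun s => (a (i + s) - a i) % k) (by simp)
    (by
      intro s _
      simp only [Finset.coe_Ico, Set.mem_Ico]
      exact ⟨Int.emod_nonneg _ hk'.ne', Int.emod_lt_of_pos _ hk'⟩)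
  rw [Finset.mem_range] at hx hy
  have key : ∀ x y : ℕ, x < y → y < k + 1 → (a (i + x) - a i) % k = (a (i + y) - a i) % k →
      a (i + y) = a (i + x) + k := by
    intro x y hxy hy he
    have h1 : a (i + x) < a (i + y) := mono_of hm _ _ (by omega) (by omega)
    have h2 : a i ≤ a (i + x) := by
      rcases Nat.eq_zero_or_pos x with h | h
      · rw [h]; simp
      · exact (mono_of hm _ _ (by omega) (by omega)).le
    have h3 : a (i + y) ≤ a (i + k) := by
      rcases Nat.lt_or_ge y k with h | h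
      · exact (mono_of hm _ _ (by omega) (by omega)).le
      · have : y = k := by omega
        rw [this]
    have h4 : (k : ℤ) ∣ (a (i + y) - a i) - (a (i + x) - a i) :=
      Int.ModEq.dvd he
    obtain ⟨q, hq⟩ := h4
    have h5 : 0 < q := by
      by_contra h
      push Not at h
      nlinarith
    have h6 : q < 2 := by
      by_contra h
      push Not at h
      nlinarith
    have : q = 1 := by omega
    rw [this] at hq
    linarith
  rcases Nat.lt_or_gt_of_ne hxy with h | h
  · exact ⟨i + x, i + y, by omega, by omega, key x y h hy he⟩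
  · exact ⟨i + y, i + x, by omega, by omega, key y x h hx he.symm⟩

theorem cyc {m q h : ℕ} (hm : 0 < m) (hc : Nat.Coprime q m) (hh : h < m) (e : ℕ → ℤ)
    (he : ∀ x < m, e x ≤ e ((x + q) % m)) : e h = e 0 := by
  have step : ∀ s, e ((s * q) % m) ≤ e (((s + 1) * q) % m) := by
    intro s
    have h1 := he _ (Nat.mod_lt (s * q) hm)
    rwa [show ((s * q) % m + q) % m = ((s + 1) * q) % m by
      rw [Nat.mod_add_mod]; ring_nf] at h1
  have chain : ∀ t s, s ≤ t → e ((s * q) % m) ≤ e ((t * q) % m) := by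
    intro t
    induction t with
    | zero => intro s hs; have : s = 0 := by omega
              rw [this]
    | succ t ih =>
      intro s hs
      rcases Nat.lt_or_ge s (t + 1) with h1 | h1
      · exact le_trans (ih s (by omega)) (step t)
      · have : s = t + 1 := by omega
        rw [this]
  obtain ⟨s, hs⟩ : ∃ s, (s * q) % m = h := by
    obtain ⟨u, -, hu⟩ := Nat.exists_mul_mod_eq_of_coprime h hc hm.ne'
    exact ⟨u, by rw [Nat.mul_comm, hu, Nat.mod_eq_of_lt hh]⟩
  have h1 := chain s 0 (by omega)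
  have h2 := chain (s * m) s (Nat.le_mul_of_pos_right _ hm)
  have h3 : (s * m * q) % m = 0 := by
    rw [show s * m * q = m * (s * q) by ring]
    exact Nat.mul_mod_right _ _
  rw [hs] at h1 h2
  rw [h3] at h2
  simp only [Nat.zero_mul, Nat.zero_mod] at h1
  exact le_antisymm h2 h1

theorem upper {g b k h : ℕ} (hg : 1 ≤ g) (hb : 1 ≤ b) (hh : 1 ≤ h) (hk : k = 2 * h)
    (hc : Nat.Coprime b k) (a : ℕ → ℤ)
    (ha : Acceptable (g * b) (2 * (g * b)) (g * b + g * k - g) a) :
    Hits (g * k) (g * b + g * k - g) a := by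
  by_contra hH
  obtain ⟨h0, hm, h2⟩ := ha
  have hn : g * b + g * k - g = g * (b + k - 1) := by
    rw [Nat.mul_sub, Nat.mul_add, Nat.mul_one]
  rw [hn] at hm h2 hH
  have hk1 : 1 ≤ g * k := Nat.mul_pos hg (by omega)
  have hP := big_step hk1 hm hH
  have hcm : Nat.Coprime k (b + k) := by
    rw [Nat.coprime_add_self_right]
    exact hc.symm
  have hcy := cyc (m := b + k) (q := k) (h := h) (by omega) hcm (by omega)
    (fun x => a (g * x) - 2 * ((g * x : ℕ) : ℤ)) (by
      intro x hx
      rcases Nat.lt_or_ge x b with h3 | h3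
      · -- `x + k < b + k`
        rw [Nat.mod_eq_of_lt (by omega : x + k < b + k)]
        have h4 : g * x + g * k ≤ g * (b + k - 1) := by
          rw [← Nat.mul_add]
          exact Nat.mul_le_mul_left g (by omega)
        have h5 := hP (g * x) h4
        rw [← Nat.mul_add] at h5
        push_cast at h5 ⊢
        nlinarith
      · have h6 : (x + k) % (b + k) = x - b := by
          rw [Nat.mod_eq_sub_mod (by omega), Nat.mod_eq_of_lt (by omega)]
          omega
        rw [h6]
        have h4 : g * (x - b) + g * b ≤ g * (b + k - 1) := by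
          rw [← Nat.mul_add]
          exact Nat.mul_le_mul_left g (by omega)
        have h5 := h2 (g * (x - b)) h4
        rw [← Nat.mul_add, Nat.sub_add_cancel h3] at h5
        obtain ⟨y, rfl⟩ := Nat.exists_eq_add_of_le h3
        rw [Nat.add_sub_cancel_left] at h5 ⊢
        push_cast at h5 ⊢
        nlinarith)
  simp only [Nat.mul_zero, h0] at hcy
  push_cast at hcy
  apply hH
  refine ⟨0, g * h, Nat.mul_pos hg hh, Nat.mul_le_mul_left g (by omega), ?_⟩
  rw [h0]
  subst hk
  push_cast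
  linarith

/-! ### lower bound -/

/-- position along the orbit -/
def tt (h u i : ℕ) : ℕ := ((i + 1) * u + (2 * h - 1)) % (2 * h)

def E (h u i : ℕ) : ℕ := if tt h u i < h then 1 else 0

theorem E_le (h u i : ℕ) : E h u i ≤ 1 := by
  unfold E
  split_ifs <;> omega

theorem E_flip {h u : ℕ} (hh : 1 ≤ h) (hu : u % 2 = 1) (i : ℕ) :
    E h u (i + h) + E h u i = 1 := by
  have h1 : tt h u (i + h) = (tt h u i + h) % (2 * h) := by
    unfold tt
    rw [Nat.mod_add_mod]
    obtain ⟨w, hw⟩ : ∃ w, u = 2 * w + 1 := ⟨u / 2, by omega⟩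
    rw [show (i + h + 1) * u + (2 * h - 1) = ((i + 1) * u + (2 * h - 1) + h) + 2 * h * w by
      rw [hw]; ring]
    rw [Nat.add_mul_mod_self_left]
  have h2 : tt h u i < 2 * h := Nat.mod_lt _ (by omega)
  unfold E
  rw [h1]
  rcases Nat.lt_or_ge (tt h u i) h with h3 | h3
  · rw [Nat.mod_eq_of_lt (by omega), if_neg (by omega), if_pos h3]
  · rw [Nat.mod_eq_sub_mod (by omega), Nat.mod_eq_of_lt (by omega), if_pos (by omega),
      if_neg (by omega)]

theorem E_mono {h u b : ℕ} (hh : 1 ≤ h) (hu : (b * u) % (2 * h) = 1 % (2 * h)) (i : ℕ)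
    (hi : i + 2 ≤ 2 * h) (hc : Nat.Coprime u (2 * h)) : E h u (i + b) ≤ E h u i := by
  have h1 : tt h u (i + b) = (tt h u i + 1) % (2 * h) := by
    unfold tt
    rw [Nat.mod_add_mod]
    rw [show (i + b + 1) * u + (2 * h - 1) = b * u + ((i + 1) * u + (2 * h - 1)) by ring,
      Nat.add_mod, hu, ← Nat.add_mod]
    congr 1
    ring
  have h2 : tt h u i < 2 * h := Nat.mod_lt _ (by omega)
  have h3 : tt h u i ≠ 2 * h - 1 := by
    intro h4
    unfold tt at h4
    have h5 : 2 * h ∣ (i + 1) * u := by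
      have : ((i + 1) * u + (2 * h - 1) + 1) % (2 * h) = 0 := by
        rw [Nat.add_mod, h4]
        rcases Nat.lt_or_ge 1 (2 * h) with h6 | h6
        · rw [Nat.mod_eq_of_lt h6, Nat.sub_add_cancel (by omega), Nat.mod_self]
        · omega
      rw [show (i + 1) * u + (2 * h - 1) + 1 = (i + 1) * u + 2 * h by omega,
        Nat.add_mod_right] at this
      exact Nat.dvd_of_mod_eq_zero this
    have h6 : 2 * h ∣ i + 1 := (Nat.Coprime.symm hc).dvd_of_dvd_mul_right h5
    have := Nat.le_of_dvd (by omega) h6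
    omega
  unfold E
  rw [h1, Nat.mod_eq_of_lt (by omega)]
  split_ifs <;> omega

theorem lower {g b k h : ℕ} (hg : 1 ≤ g) (hb : 1 ≤ b) (hh : 1 ≤ h) (hk : k = 2 * h)
    (hc : Nat.Coprime b k) :
    ∃ a : ℕ → ℤ, Acceptable (g * b) (2 * (g * b)) (g * b + g * k - g - 1) a ∧
      ∀ n, ¬ Hits (g * k) n a := by
  subst hk
  obtain ⟨u, -, hu⟩ := Nat.exists_mul_mod_eq_of_coprime 1 hc (by omega)
  have hcu : Nat.Coprime u (2 * h) := by
    rcases Nat.lt_or_ge 1 (2 * h) with h1 | h1
    · rw [Nat.mod_eq_of_lt h1] at hu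
      have h2 : Nat.gcd u (2 * h) ∣ 1 := by
        rw [← hu]
        exact (Nat.dvd_mod_iff (Nat.gcd_dvd_right u (2 * h))).2
          (Dvd.dvd.mul_left (Nat.gcd_dvd_left _ _) _)
      exact Nat.dvd_one.1 h2
    · omega
  have hu2 : u % 2 = 1 := by
    rcases Nat.mod_two_eq_zero_or_one u with h1 | h1
    · exfalso
      have h2 : 2 ∣ Nat.gcd u (2 * h) :=
        Nat.dvd_gcd (Nat.dvd_of_mod_eq_zero h1) (Dvd.intro _ rfl)
      rw [hcu] at h2
      omega
    · exact h1
  let e : ℕ → ℤ := fun i => (E h u i : ℤ)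
  have he : ∀ i, e i = 0 ∨ e i = 1 := by
    intro i
    have := E_le h u i
    simp only [e]
    omega
  have hflip : ∀ i, e (i + h) + e i = 1 := by
    intro i
    have := E_flip hh hu2 i
    simp only [e]
    exact_mod_cast this
  have hmono : ∀ i, i + 2 ≤ 2 * h → e (i + b) ≤ e i := by
    intro i hi
    have := E_mono hh hu i hi hcu
    simp only [e]
    exact_mod_cast this
  let A : ℕ → ℤ := fun j => g * (2 * ((j / g : ℕ) : ℤ) + e (j / g) - e 0) + ((j % g : ℕ) : ℤ)
  have hg' : (1 : ℤ) ≤ g := by exact_mod_cast hg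
  refine ⟨A, ⟨?_, ?_, ?_⟩, ?_⟩
  · simp [A]
  · intro j hj
    have hlt : j % g < g := Nat.mod_lt _ hg
    have hj0 := Nat.div_add_mod j g
    rcases Nat.lt_or_ge (j % g + 1) g with h1 | h1
    · have h2 : (j + 1) / g = j / g := by
        generalize j / g = q at hj0 ⊢
        generalize j % g = r at hj0 h1
        have hjj : j + 1 = (r + 1) + g * q := by omega
        rw [hjj, Nat.add_mul_div_left _ _ hg, Nat.div_eq_of_lt h1]
        omega
      have h3 : (j + 1) % g = j % g + 1 := by
        rw [Nat.add_mod, Nat.mod_eq_of_lt (a := 1) (by omega), Nat.mod_eq_of_lt h1]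
      simp only [A]
      rw [h2, h3]
      push_cast
      linarith
    · have h2 : (j + 1) / g = j / g + 1 := by
        generalize j / g = q at hj0 ⊢
        generalize j % g = r at hj0 h1 hlt
        have hrg : r + 1 = g := by omega
        have hjj : j + 1 = g + g * q := by omega
        rw [hjj, Nat.add_mul_div_left _ _ hg, Nat.div_self hg]
        omega
      have h3 : (j + 1) % g = 0 := by
        have h4 := Nat.div_add_mod (j + 1) g
        rw [h2] at h4
        nlinarith
      simp only [A]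
      rw [h2, h3]
      have h5 : ((j % g : ℕ) : ℤ) ≤ g - 1 := by
        have : j % g + 1 ≤ g := hlt
        have : ((j % g + 1 : ℕ) : ℤ) ≤ g := by exact_mod_cast this
        push_cast at this ⊢
        linarith
      push_cast
      rcases he (j / g) with h6 | h6 <;> rcases he (j / g + 1) with h7 | h7 <;> rw [h6, h7] <;>
        push_cast at h5 <;> nlinarith
  · intro j hj
    have h2 : (j + g * b) / g = j / g + b := by
      rw [Nat.add_mul_div_left _ _ hg]
    have h3 : (j + g * b) % g = j % g := by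
      rw [Nat.add_mul_mod_self_left]
    have h4 : j / g + 2 ≤ 2 * h := by
      have hpos : g + 1 ≤ g * (2 * h) := by nlinarith
      have h5 : j + 1 + g ≤ g * (2 * h) := by omega
      have h6 : j < g * (2 * h - 1) := by
        rw [Nat.mul_sub, Nat.mul_one]
        omega
      have h7 := Nat.div_lt_of_lt_mul h6
      omega
    have h5 := hmono _ h4
    simp only [A]
    rw [h2, h3]
    push_cast
    nlinarith
  · rintro n ⟨i, j, -, -, hij⟩
    simp only [A] at hij
    have hi : i % g < g := Nat.mod_lt _ hg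
    have hj : j % g < g := Nat.mod_lt _ hg
    have hi' : ((i % g : ℕ) : ℤ) < g := by exact_mod_cast hi
    have hj' : ((j % g : ℕ) : ℤ) < g := by exact_mod_cast hj
    have hi0 : (0 : ℤ) ≤ ((i % g : ℕ) : ℤ) := Int.natCast_nonneg _
    have hj0 : (0 : ℤ) ≤ ((j % g : ℕ) : ℤ) := Int.natCast_nonneg _
    set x : ℤ := 2 * ((j / g : ℕ) : ℤ) + e (j / g) - e 0 with hx
    set y : ℤ := 2 * ((i / g : ℕ) : ℤ) + e (i / g) - e 0 with hy
    push_cast at hij
    have h1 : (g : ℤ) * (x - y - 2 * h) = ((i % g : ℕ) : ℤ) - ((j % g : ℕ) : ℤ) := by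
      push_cast
      linarith
    have h2 : x - y - 2 * h = 0 := by
      by_contra hne
      rcases lt_or_gt_of_ne hne with h3 | h3
      · nlinarith
      · nlinarith
    have hei := he (i / g)
    have hej := he (j / g)
    have h3 : ((j / g : ℕ) : ℤ) = ((i / g : ℕ) : ℤ) + h := by omega
    have h4 : j / g = i / g + h := by exact_mod_cast h3
    have h5 := hflip (i / g)
    rw [← h4] at h5
    omega

theorem split {b k : ℕ} (hb : 1 ≤ b) (hk : 1 ≤ k) (h : padicValNat 2 b < padicValNat 2 k) :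
    ∃ g b' k' h', 1 ≤ g ∧ 1 ≤ b' ∧ 1 ≤ h' ∧ k' = 2 * h' ∧ Nat.Coprime b' k' ∧ b = g * b' ∧
      k = g * k' ∧ Nat.gcd b k = g := by
  have hg : 0 < Nat.gcd b k := Nat.gcd_pos_of_pos_left _ hb
  obtain ⟨b', hb'⟩ := Nat.gcd_dvd_left b k
  obtain ⟨k', hk'⟩ := Nat.gcd_dvd_right b k
  have hb1 : b' ≠ 0 := by rintro rfl; omega
  have hk1 : k' ≠ 0 := by rintro rfl; omega
  have hco : Nat.Coprime b' k' := by
    have := Nat.coprime_div_gcd_div_gcd hg
    rwa [Nat.div_eq_of_eq_mul_right hg hb', Nat.div_eq_of_eq_mul_right hg hk'] at this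
  have h2 : 2 ∣ k' := by
    by_contra hnd
    have h3 : padicValNat 2 k' = 0 := padicValNat.eq_zero_of_not_dvd hnd
    have h4 : padicValNat 2 k = padicValNat 2 (Nat.gcd b k) + padicValNat 2 k' := by
      conv_lhs => rw [hk']
      exact padicValNat.mul hg.ne' hk1
    have h5 : padicValNat 2 b = padicValNat 2 (Nat.gcd b k) + padicValNat 2 b' := by
      conv_lhs => rw [hb']
      exact padicValNat.mul hg.ne' hb1
    omega
  obtain ⟨h', hh'⟩ := h2
  exact ⟨Nat.gcd b k, b', k', h', hg, by omega, by omega, hh', hco, hb', hk', rfl⟩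

/-- **The conjecture for `c = 2b` is true.** Let `b, k ≥ 1` with `v_2(k) > v_2(b)`. Every acceptable
sequence `a_0, …, a_n` for `b, 2b` hits `k` if and only if `n ≥ b + k - gcd(b, k)`. -/
theorem result : ∀ b k : ℕ, 1 ≤ b → 1 ≤ k → padicValNat 2 b < padicValNat 2 k →
    (∀ n, AllHit b (2 * b) k n ↔ b + k - Nat.gcd b k ≤ n) ∧
      IsLeast {n : ℕ | 1 ≤ n ∧ AllHit b (2 * b) k n} (b + k - Nat.gcd b k) := by
  intro b k hb hk hv
  have main : ∀ n, AllHit b (2 * b) k n ↔ b + k - Nat.gcd b k ≤ n := by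
    obtain ⟨g, b', k', h', hg, hb', hh', hk', hco, rfl, rfl, hgcd⟩ := split hb hk hv
    rw [hgcd]
    intro n
    constructor
    · intro hA
      by_contra hlt
      push Not at hlt
      obtain ⟨a, ⟨h0, h1, h2⟩, h3⟩ := lower hg hb' hh' hk' hco
      exact h3 n (hA a ⟨h0, fun i hi => h1 i (by omega), fun i hi => h2 i (by omega)⟩)
    · intro hle a ⟨h0, h1, h2⟩
      obtain ⟨i, j, hij, hj, h3⟩ := upper hg hb' hh' hk' hco a
        ⟨h0, fun i hi => h1 i (by omega), fun i hi => h2 i (by omega)⟩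
      exact ⟨i, j, hij, by omega, h3⟩
  refine ⟨main, ?_, ?_⟩
  · have h1 : Nat.gcd b k ≤ b := Nat.gcd_le_left _ hb
    exact ⟨by omega, (main _).2 le_rfl⟩
  · intro n hn
    exact (main n).1 hn.2

end Pool.Agent.Results.MP_25dd1e_co.CaseTwoB
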