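import Pool.Agent.Results.MP_25dd1e_co.BelowTwoB
import Pool.Agent.Results.MP_25dd1e_co.CaseTwoB

/-! MP_25dd1e_co: both open cases of Q1 together. -/

namespace Pool.Agent.Results.MP_25dd1e_co.AnswerQ1

/-- the terms `a 0, …, a n` form an acceptable sequence for `b, c` -/
def Acceptable (b c n : ℕ) (a : ℕ → ℤ) : Prop :=
  a 0 = 0 ∧ (∀ i, i < n → a i < a (i + 1)) ∧ ∀ i, i + b ≤ n → a (i + b) ≤ a i + c

/-- the terms `a 0, …, a n` hit `k` -/
def Hits (k n : ℕ) (a : ℕ → ℤ) : Prop :=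
  ∃ i j, i < j ∧ j ≤ n ∧ a j = a i + k

/-- every acceptable sequence `a 0, …, a n` hits `k` -/
def AllHit (b c k n : ℕ) : Prop := ∀ a : ℕ → ℤ, Acceptable b c n a → Hits k n a

/-- The value of `N(b, c, k)` for `b ≤ c < 2b`. Let `s = ⌈b / k⌉ - 1`, `β = b - s k` (so
`1 ≤ β ≤ k`) and `d = c - b`. If `d < s k` the value is `b`. Otherwise put `D = d - s k`,
`y = max(2 D - k, 0)` and `P = 2 k - β - D`; the value is
`(s + 1) k + ⌊y / P⌋ (k - β) + min (k - β) (y mod P)`. -/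
def val (b c k : ℕ) : ℕ :=
  if c - b < ((b - 1) / k) * k then b
  else ((b - 1) / k + 1) * k +
    ((2 * (c - b - ((b - 1) / k) * k) - k) /
      (2 * k - (b - ((b - 1) / k) * k) - (c - b - ((b - 1) / k) * k))) *
        (k - (b - ((b - 1) / k) * k)) +
    min (k - (b - ((b - 1) / k) * k))
      ((2 * (c - b - ((b - 1) / k) * k) - k) %
        (2 * k - (b - ((b - 1) / k) * k) - (c - b - ((b - 1) / k) * k)))

/-- **Both open cases of Q1.** For `c < 2b` the number `N(b, c, k)` is `val b c k`; for `c = 2b` and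
`v_2(k) > v_2(b)` it is `b + k - gcd(b, k)`. -/
theorem result : ∀ b c k : ℕ, 1 ≤ b → b ≤ c → 1 ≤ k →
    (c < 2 * b → (∀ n, AllHit b c k n ↔ val b c k ≤ n) ∧
      IsLeast {n : ℕ | 1 ≤ n ∧ AllHit b c k n} (val b c k)) ∧
    (c = 2 * b → padicValNat 2 b < padicValNat 2 k →
      (∀ n, AllHit b c k n ↔ b + k - Nat.gcd b k ≤ n) ∧
        IsLeast {n : ℕ | 1 ≤ n ∧ AllHit b c k n} (b + k - Nat.gcd b k)) := by
  intro b c k hb hbc hk
  refine ⟨fun hc => BelowTwoB.result b c k hb hbc hc hk, ?_⟩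
  rintro rfl hv
  exact CaseTwoB.result b k hb hk hv

end Pool.Agent.Results.MP_25dd1e_co.AnswerQ1
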