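import Mathlib

/-! MP_25dd1e_co: the value of `N(b, c, k)` for all `c < 2 b`. -/

namespace Pool.Agent.Results.MP_25dd1e_co.BelowTwoB

/-- the terms `a 0, …, a n` form an acceptable sequence for `b, c` -/
def Acceptable (b c n : ℕ) (a : ℕ → ℤ) : Prop :=
  a 0 = 0 ∧ (∀ i, i < n → a i < a (i + 1)) ∧ ∀ i, i + b ≤ n → a (i + b) ≤ a i + c

/-- the terms `a 0, …, a n` hit `k` -/
def Hits (k n : ℕ) (a : ℕ → ℤ) : Prop :=
  ∃ i j, i < j ∧ j ≤ n ∧ a j = a i + k

/-- every acceptable sequence `a 0, …, a n` hits `k` -/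
def AllHit (b c k n : ℕ) : Prop := ∀ a : ℕ → ℤ, Acceptable b c n a → Hits k n a

theorem mono_of {n : ℕ} {a : ℕ → ℤ} (h : ∀ i, i < n → a i < a (i + 1)) :
    ∀ j i, i ≤ j → j ≤ n → a i + (j - i : ℕ) ≤ a j := by
  intro j
  induction j with
  | zero => intro i hi _; have : i = 0 := by omega
            subst this; simp
  | succ j ih =>
    intro i hi hj
    have h1 := h j (by omega)
    rcases Nat.lt_or_ge j i with h2 | h2
    · have : i = j + 1 := by omega
      subst this; simp
    · have h3 := ih i h2 (by omega)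
      have h4 : j + 1 - i = (j - i) + 1 := by omega
      rw [h4]; push_cast; omega

theorem lt_of {n : ℕ} {a : ℕ → ℤ} (h : ∀ i, i < n → a i < a (i + 1)) {i j : ℕ}
    (hi : i ≤ n) (hj : j ≤ n) (hij : a i < a j) : i < j := by
  by_contra h1
  have := mono_of h i j (by omega) hi
  omega

/-- the counting inequality -/
theorem count {k n : ℕ} (hk0 : 1 ≤ k) {a : ℕ → ℤ} (hm : ∀ i, i < n → a i < a (i + 1))
    (hH : ¬ Hits k n a) {j q T : ℕ} (hjq : j ≤ q) (hq : q ≤ n) (hT : T ≤ n) (h0 : a 0 = 0)
    (hk : ∀ i, j < i → i ≤ q → (k : ℤ) ≤ a i) (hTq : ∀ i, i < T → a i + k ≤ a q)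
    (hkq : (k : ℤ) ≤ a q + 1) :
    (T : ℤ) + (q - j : ℕ) ≤ a q - k + 1 := by
  classical
  let S1 : Finset ℤ := (Finset.range T).image (fun i => a i + k)
  let S2 : Finset ℤ := (Finset.Ioc j q).image a
  have inj : ∀ x y, x ≤ n → y ≤ n → a x = a y → x = y := by
    intro x y hx hy hxy
    rcases Nat.lt_trichotomy x y with h | h | h
    · have := mono_of hm y x h.le hy; omega
    · exact h
    · have := mono_of hm x y h.le hx; omega
  have c1 : S1.card = T := by
    rw [Finset.card_image_of_injOn, Finset.card_range]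
    intro x hx y hy hxy
    simp only [Finset.coe_range, Set.mem_Iio] at hx hy
    exact inj x y (by omega) (by omega) (by simpa using hxy)
  have c2 : S2.card = q - j := by
    rw [Finset.card_image_of_injOn, Nat.card_Ioc]
    intro x hx y hy hxy
    simp only [Finset.coe_Ioc, Set.mem_Ioc] at hx hy
    exact inj x y (by omega) (by omega) hxy
  have hd : Disjoint S1 S2 := by
    rw [Finset.disjoint_left]
    intro x hx1 hx2
    simp only [S1, S2, Finset.mem_image, Finset.mem_range, Finset.mem_Ioc] at hx1 hx2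
    obtain ⟨i, hi, rfl⟩ := hx1
    obtain ⟨l, ⟨hl1, hl2⟩, hl3⟩ := hx2
    exact hH ⟨i, l, lt_of hm (by omega) (by omega) (by omega), by omega, hl3⟩
  have hsub : S1 ∪ S2 ⊆ Finset.Icc (k : ℤ) (a q) := by
    intro x hx
    simp only [S1, S2, Finset.mem_union, Finset.mem_image, Finset.mem_range,
      Finset.mem_Ioc] at hx
    rw [Finset.mem_Icc]
    rcases hx with ⟨i, hi, rfl⟩ | ⟨l, ⟨hl1, hl2⟩, rfl⟩
    · have h1 := mono_of hm i 0 (by omega) (by omega)
      have h2 := hTq i hi
      rw [h0] at h1
      constructor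
      · have : (0 : ℤ) ≤ ((i - 0 : ℕ) : ℤ) := Int.natCast_nonneg _
        omega
      · exact h2
    · have h1 := mono_of hm q l hl2 hq
      have := hk l hl1 hl2
      omega
  have hcard := Finset.card_le_card hsub
  rw [Finset.card_union_of_disjoint hd, c1, c2, Int.card_Icc] at hcard
  have h5 : ((a q + 1 - k).toNat : ℤ) = a q + 1 - k := Int.toNat_of_nonneg (by omega)
  have h6 : ((T + (q - j) : ℕ) : ℤ) ≤ ((a q + 1 - k).toNat : ℤ) := by exact_mod_cast hcard
  rw [h5] at h6
  push_cast at h6 ⊢
  omega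

/-- choice of `T` -/
theorem exT {k n : ℕ} (hk0 : 1 ≤ k) {a : ℕ → ℤ} (hH : ¬ Hits k n a)
    (hm : ∀ i, i < n → a i < a (i + 1)) {q : ℕ} (hq : q ≤ n) :
    ∃ T, T ≤ q ∧ (∀ i, i < T → a i + k ≤ a q) ∧ a q < a T + k := by
  classical
  have hex : ∃ T, a q < a T + k := ⟨q, by omega⟩
  refine ⟨Nat.find hex, Nat.find_min' hex (by omega), ?_, Nat.find_spec hex⟩
  intro i hi
  have := Nat.find_min hex hi
  omega

theorem L1 {b c k n : ℕ} (hb : 1 ≤ b) (hbc : b ≤ c) (hc : c < 2 * b) (hk0 : 1 ≤ k)
    {a : ℕ → ℤ} (hA : Acceptable b c n a) (hH : ¬ Hits k n a) (j : ℕ) (hj : j + b ≤ n)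
    (h1 : a j < k) (h2 : (k : ℤ) < a (j + 1)) : False := by
  obtain ⟨h0, hm, hs⟩ := hA
  obtain ⟨T, hTq, hT1, hT2⟩ := exT hk0 hH hm (q := j + b) hj
  have hlow : a (j + 1) ≤ a (j + b) := by
    have := mono_of hm (j + b) (j + 1) (by omega) hj
    omega
  have hc1 := count hk0 hm hH (j := j) (q := j + b) (T := T) (by omega) hj (by omega) h0
    (by
      intro i hi hi2
      have := mono_of hm i (j + 1) (by omega) (by omega)
      omega) hT1 (by omega)
  have h3 := hs j hj
  rw [show j + b - j = b by omega] at hc1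
  have hTd : T + b ≤ c := by
    have : (T : ℤ) + b ≤ c := by omega
    exact_mod_cast this
  have h4 := mono_of hm b T (by omega) (by omega)
  have h5 := hs 0 (by omega)
  rw [h0, Nat.zero_add] at h5
  have h6 : ((b - T : ℕ) : ℤ) = b - T := by
    rw [Nat.cast_sub (by omega)]
  omega

theorem L1' {b c k n : ℕ} (hb : 1 ≤ b) (hbc : b ≤ c) (hc : c < 2 * b) (hk0 : 1 ≤ k)
    {a : ℕ → ℤ} (hA : Acceptable b c n a) (hH : ¬ Hits k n a) :
    ∀ j, j + b ≤ n + 1 → j ≤ n → a j < k := by
  intro j
  induction j with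
  | zero => intro _ _; rw [hA.1]; omega
  | succ j ih =>
    intro hj hj'
    have h1 := ih (by omega) (by omega)
    by_contra h2
    push Not at h2
    rcases h2.lt_or_eq with h3 | h3
    · exact L1 hb hbc hc hk0 hA hH j (by omega) h1 h3
    · exact hH ⟨0, j + 1, by omega, hj', by rw [hA.1]; omega⟩

/-- mirror image -/
theorem mirror {b c n : ℕ} {a : ℕ → ℤ} (hA : Acceptable b c n a) :
    Acceptable b c n (fun i => a n - a (n - i)) := by
  obtain ⟨h0, hm, hs⟩ := hA
  refine ⟨by simp, ?_, ?_⟩
  · intro i hi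
    have := hm (n - (i + 1)) (by omega)
    rw [show n - (i + 1) + 1 = n - i by omega] at this
    show a n - a (n - i) < a n - a (n - (i + 1))
    omega
  · intro i hi
    have := hs (n - (i + b)) (by omega)
    rw [show n - (i + b) + b = n - i by omega] at this
    show a n - a (n - (i + b)) ≤ a n - a (n - i) + c
    omega

theorem mirror_hit {k n : ℕ} {a : ℕ → ℤ} (hH : ¬ Hits k n a) :
    ¬ Hits k n (fun i => a n - a (n - i)) := by
  rintro ⟨i, j, hij, hj, h⟩
  simp only at h
  exact hH ⟨n - j, n - i, by omega, by omega, by omega⟩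


theorem mono_lt {n : ℕ} {a : ℕ → ℤ} (h : ∀ i, i < n → a i < a (i + 1)) :
    ∀ j i, i < j → j ≤ n → a i < a j := by
  intro j
  induction j with
  | zero => intro i hi; omega
  | succ j ih =>
    intro i hi hj
    have h1 := h j (by omega)
    rcases Nat.lt_or_ge i j with h2 | h2
    · exact lt_trans (ih i h2 (by omega)) h1
    · have : i = j := by omega
      rw [this]; exact h1

theorem big_step {k n : ℕ} (hk : 1 ≤ k) {a : ℕ → ℤ} (hm : ∀ i, i < n → a i < a (i + 1))
    (hh : ¬ Hits k n a) (i : ℕ) (hi : i + k ≤ n) : a i + 2 * k ≤ a (i + k) := by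
  by_contra hlt
  push Not at hlt
  apply hh
  have hk' : (0 : ℤ) < k := by exact_mod_cast hk
  obtain ⟨x, hx, y, hy, hxy, he⟩ := Finset.exists_ne_map_eq_of_card_lt_of_maps_to
    (s := Finset.range (k + 1)) (t := Finset.Ico (0 : ℤ) k)
    (f := fun s => (a (i + s) - a i) % k) (by simp)
    (by
      intro s _
      simp only [Finset.coe_Ico, Set.mem_Ico]
      exact ⟨Int.emod_nonneg _ hk'.ne', Int.emod_lt_of_pos _ hk'⟩)
  rw [Finset.mem_range] at hx hy
  have key : ∀ x y : ℕ, x < y → y < k + 1 → (a (i + x) - a i) % k = (a (i + y) - a i) % k →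
      a (i + y) = a (i + x) + k := by
    intro x y hxy hy he
    have h1 : a (i + x) < a (i + y) := mono_lt hm _ _ (by omega) (by omega)
    have h2 : a i ≤ a (i + x) := by
      rcases Nat.eq_zero_or_pos x with h | h
      · rw [h]; simp
      · exact (mono_lt hm _ _ (by omega) (by omega)).le
    have h3 : a (i + y) ≤ a (i + k) := by
      rcases Nat.lt_or_ge y k with h | h
      · exact (mono_lt hm _ _ (by omega) (by omega)).le
      · have : y = k := by omega
        rw [this]
    have h4 : (k : ℤ) ∣ (a (i + y) - a i) - (a (i + x) - a i) :=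
      Int.ModEq.dvd he
    obtain ⟨q, hq⟩ := h4
    have h5 : 0 < q := by
      by_contra h
      push Not at h
      nlinarith
    have h6 : q < 2 := by
      by_contra h
      push Not at h
      nlinarith
    have : q = 1 := by omega
    rw [this] at hq
    linarith
  rcases Nat.lt_or_gt_of_ne hxy with h | h
  · exact ⟨i + x, i + y, by omega, by omega, key x y h hy he⟩
  · exact ⟨i + y, i + x, by omega, by omega, key y x h hx he.symm⟩



theorem chain {b c k n : ℕ} (hbk : b ≤ k) (hk0 : 1 ≤ k) {a : ℕ → ℤ}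
    (hA : Acceptable b c n a) (hH : ¬ Hits k n a) :
    ∀ m, m * (k - b) + k ≤ n → (m + 1 : ℤ) * (2 * k - c) ≤ a ((m + 1) * (k - b)) := by
  obtain ⟨h0, hm, hs⟩ := hA
  intro m
  induction m with
  | zero =>
    intro hn
    have b1 := big_step hk0 hm hH 0 (by omega)
    have b2 := hs (k - b) (by omega)
    rw [show k - b + b = k by omega] at b2
    rw [h0, Nat.zero_add] at b1
    rw [Nat.zero_add, Nat.one_mul]
    push_cast
    linarith
  | succ m ih =>
    intro hn
    have e1 : (m + 1) * (k - b) = m * (k - b) + (k - b) := by ring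
    have e2 : (m + 1 + 1) * (k - b) = (m + 1) * (k - b) + (k - b) := by ring
    have h1 := ih (by rw [e1] at hn; omega)
    have b1 := big_step hk0 hm hH ((m + 1) * (k - b)) (by omega)
    have b2 := hs ((m + 1) * (k - b) + (k - b)) (by omega)
    rw [show (m + 1) * (k - b) + (k - b) + b = (m + 1) * (k - b) + k by omega] at b2
    rw [e2]
    have e3 : ((m + 1 : ℕ) + 1 : ℤ) * (2 * k - c) = (m + 1 : ℤ) * (2 * k - c) + (2 * k - c) := by
      push_cast; ring
    rw [e3]
    linarith

/-- **Upper bound**. -/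
theorem upper' {b c k n m w : ℕ} (hb : 1 ≤ b) (hbc : b ≤ c) (hc : c < 2 * b) (hk0 : 1 ≤ k)
    (hbk : b ≤ k) (hw1 : m * (k - b) ≤ w) (hw2 : c - b ≤ w + (m + 1) * (k + b - c))
    (hn : n = k + w) : AllHit b c k n := by
  classical
  intro a hA
  by_contra hH
  have hA' := mirror hA
  have hH' := mirror_hit hH
  have e1 := L1' hb hbc hc hk0 hA hH
  have e2 : a n - a (n - (n + 1 - b)) < k :=
    L1' hb hbc hc hk0 hA' hH' (n + 1 - b) (by omega) (by omega)
  rw [show n - (n + 1 - b) = b - 1 by omega] at e2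
  have hch := chain hbk hk0 hA hH m (by omega)
  obtain ⟨h0, hm, hs⟩ := hA
  have hex : ∃ i, (k : ℤ) < a (i + 1) ∧ i < n := by
    refine ⟨n - 1, ?_, by omega⟩
    rw [show n - 1 + 1 = n by omega]
    have h1 := mono_of hm n 0 (by omega) le_rfl
    rw [h0, Nat.sub_zero] at h1
    rcases (show (k : ℤ) ≤ a n by omega).lt_or_eq with h2 | h2
    · exact h2
    · exact absurd ⟨0, n, by omega, le_rfl, by rw [h0]; omega⟩ hH
  set j := Nat.find hex with hjdef
  have hj := Nat.find_spec hex
  rw [← hjdef] at hj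
  have hjk : a j < k := by
    rcases Nat.eq_zero_or_pos j with h1 | h1
    · rw [h1, h0]; omega
    · have h2 := Nat.find_min hex (m := j - 1) (by omega)
      have h3 : ¬ ((k : ℤ) < a j) := by
        intro h4
        apply h2
        rw [show j - 1 + 1 = j by omega]
        exact ⟨h4, by omega⟩
      rcases lt_or_eq_of_le (not_lt.1 h3) with h4 | h4
      · exact h4
      · exact absurd ⟨0, j, h1, by omega, by rw [h0]; omega⟩ hH
  have hjb : n < j + b := by
    by_contra h1
    exact L1 hb hbc hc hk0 ⟨h0, hm, hs⟩ hH j (by omega) hjk hj.1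
  obtain ⟨T, hTq, hT1, hT2⟩ := exT hk0 hH hm (q := n) le_rfl
  have hTb : T ≤ b - 1 := by
    by_contra h1
    have := hT1 (b - 1) (by omega)
    omega
  have hc1 := count hk0 hm hH (j := j) (q := n) (T := T) (by omega) le_rfl (by omega) h0
    (by
      intro i hi hi2
      have := mono_of hm i (j + 1) (by omega) (by omega)
      omega) hT1 (by
      have := mono_of hm n (j + 1) (by omega) le_rfl
      omega)
  have h6 := hs 0 (by omega)
  rw [h0, Nat.zero_add] at h6
  have h7 := mono_of hm b T (by omega) (by omega)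
  have e3 : (m + 1) * (k - b) = m * (k - b) + (k - b) := by ring
  have e4 : ((m + 1) * (k + b - c) : ℕ) + ((m + 1) * (k - b) : ℕ) = (m + 1 : ℤ) * (2 * k - c) := by
    rw [Nat.cast_mul, Nat.cast_mul, Nat.cast_sub (by omega), Nat.cast_sub (by omega)]
    push_cast
    ring
  rw [e3] at e4 hch
  generalize m * (k - b) = X at *
  generalize (m + 1) * (k + b - c) = Y at *
  rw [← e4] at hch
  have h9 := mono_of hm j (X + (k - b)) (by omega) (by omega)
  have g1 : ((b - T : ℕ) : ℤ) = b - T := by rw [Nat.cast_sub (by omega)]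
  have g2 : ((n - j : ℕ) : ℤ) = n - j := by rw [Nat.cast_sub (by omega)]
  have g3 : ((j - (X + (k - b)) : ℕ) : ℤ) = j - ((X + (k - b) : ℕ) : ℤ) := by
    rw [Nat.cast_sub (by omega)]
  have g4 : (n : ℤ) = k + w := by omega
  have g5 : (c : ℤ) - b ≤ w + Y := by omega
  omega

theorem upper {b c k n m w : ℕ} (hb : 1 ≤ b) (hbc : b ≤ c) (hc : c < 2 * b)
    (hbk : b ≤ k) (h1 : m * (k - b) ≤ w) (h2 : c - b ≤ w + (m + 1) * (k + b - c))
    (hn : k + w ≤ n) : AllHit b c k n := by
  intro a ⟨a0, a1, a2⟩
  obtain ⟨i, j, hij, hj, h⟩ := upper' hb hbc hc (by omega) hbk h1 h2 rfl a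
    ⟨a0, fun i hi => a1 i (by omega), fun i hi => a2 i (by omega)⟩
  exact ⟨i, j, hij, by omega, h⟩

/-! ### lower bound -/

/-- the excess of the extremal sequence -/
def ee (k s u U W i : ℕ) : ℕ :=
  if i < W then u * (i / s) else if i < k - U then U else
    if i < k then U + min (((i - (k - U)) / u + 1) * s) W else k + u * ((i - k) / s)

theorem NH1 {s u W i t : ℕ} (hs : 1 ≤ s) (hu : 1 ≤ u) (hi : i < W) :
    i + u * (i / s) ≠ t + min ((t / u + 1) * s) W := by
  have h1 := Nat.div_add_mod i s
  have h2 := Nat.mod_lt i hs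
  have h3 := Nat.div_add_mod t u
  have h4 := Nat.mod_lt t hu
  generalize i / s = l' at *
  generalize t / u = l at *
  rcases Nat.lt_or_ge l l' with h5 | h5
  · have h6 : s * (l + 1) ≤ s * l' := Nat.mul_le_mul_left s h5
    have h7 : u * (l + 1) ≤ u * l' := Nat.mul_le_mul_left u h5
    have h8 : (l + 1) * s = s * (l + 1) := Nat.mul_comm _ _
    have h9 : u * (l + 1) = u * l + u := by ring
    have h10 : min ((l + 1) * s) W ≤ (l + 1) * s := min_le_left _ _
    omega
  · have h6 : s * l' ≤ s * l := Nat.mul_le_mul_left s h5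
    have h7 : u * l' ≤ u * l := Nat.mul_le_mul_left u h5
    have h8 : (l + 1) * s = s * l + s := by ring
    have h10 : i < min ((l + 1) * s) W := lt_min (by omega) hi
    omega

section
variable {k s u q U W : ℕ} (hs : 1 ≤ s) (hu : 1 ≤ u) (hU : U = (q + 1) * u)
  (hW : W ≤ (q + 1) * s) (hk : U + W + u ≤ k)

include hs hU hW in
theorem m2 {i : ℕ} (hi : i < W) : u * (i / s) ≤ U := by
  have h1 : i / s < q + 1 := (Nat.div_lt_iff_lt_mul hs).2 (by omega)
  rw [hU, Nat.mul_comm (q + 1) u]
  exact Nat.mul_le_mul_left u h1.le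

include hs hU hW in
theorem E_ge {i : ℕ} (hi : i < W + s) (hk' : U ≤ k) : u * (i / s) ≤ ee k s u U W i := by
  have h1 : i / s < q + 2 := (Nat.div_lt_iff_lt_mul hs).2 (by
    have : (q + 2) * s = (q + 1) * s + s := by ring
    omega)
  have h2 : u * (i / s) ≤ U := by
    rw [hU, Nat.mul_comm (q + 1) u]
    exact Nat.mul_le_mul_left u (by omega)
  unfold ee
  split_ifs <;> omega

include hs hU hW hk in
theorem E_le {i : ℕ} (hi : i < k) : ee k s u U W i ≤ U + W := by
  have h3 : min (((i - (k - U)) / u + 1) * s) W ≤ W := min_le_right _ _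
  unfold ee
  split_ifs with h1
  · have := m2 hs hU hW h1
    omega
  all_goals omega

include hs hU hW hk in
theorem E_mono (i : ℕ) : ee k s u U W i ≤ ee k s u U W (i + 1) := by
  have a1 : u * (i / s) ≤ u * ((i + 1) / s) :=
    Nat.mul_le_mul_left u (Nat.div_le_div_right (by omega))
  have a2 : u * ((i - k) / s) ≤ u * ((i + 1 - k) / s) :=
    Nat.mul_le_mul_left u (Nat.div_le_div_right (by omega))
  have a3 : min (((i - (k - U)) / u + 1) * s) W ≤ min (((i + 1 - (k - U)) / u + 1) * s) W := by
    refine min_le_min_right _ (Nat.mul_le_mul_right s ?_)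
    have : (i - (k - U)) / u ≤ (i + 1 - (k - U)) / u := Nat.div_le_div_right (by omega)
    omega
  have a4 : i < W → u * (i / s) ≤ U := m2 hs hU hW
  have a5 : min (((i - (k - U)) / u + 1) * s) W ≤ W := min_le_right _ _
  unfold ee
  split_ifs <;> omega

/-- the extremal sequence -/
def sq (k s u U W i : ℕ) : ℤ := ((i + ee k s u U W i : ℕ) : ℤ) - ((ee k s u U W 0 : ℕ) : ℤ)

include hs hu hU hW hk in
theorem lower {b c n : ℕ} (hb : b + s = k) (hc : c + u + s = 2 * k) (hn : n < k + W) :
    Acceptable b c n (sq k s u U W) ∧ ¬ Hits k n (sq k s u U W) := by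
  refine ⟨⟨?_, ?_, ?_⟩, ?_⟩
  · simp [sq]
  · intro i _
    have := E_mono hs hU hW hk i
    simp only [sq]
    omega
  · intro i hi
    have key : i + b + ee k s u U W (i + b) ≤ i + ee k s u U W i + c := by
      rcases Nat.lt_or_ge i s with h1 | h1
      · have := E_le hs hU hW hk (i := i + b) (by omega)
        omega
      · have h2 := E_ge (k := k) hs hU hW (i := i) (by omega) (by omega)
        have h3 : ee k s u U W (i + b) = k + u * ((i - s) / s) := by
          unfold ee
          rw [if_neg (by omega), if_neg (by omega), if_neg (by omega),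
            show i + b - k = i - s by omega]
        have h4 : i / s = (i - s) / s + 1 := by
          rw [Nat.div_eq_sub_div hs h1]
        rw [h4, Nat.mul_add, Nat.mul_one] at h2
        omega
    simp only [sq]
    omega
  · rintro ⟨i, j, hij, hj, h⟩
    have h' : j + ee k s u U W j = i + ee k s u U W i + k := by
      simp only [sq] at h
      omega
    have a4 : i < W → u * (i / s) ≤ U := m2 hs hU hW
    have a4' : j < W → u * (j / s) ≤ U := m2 hs hU hW
    have a6 : j - k < W → u * ((j - k) / s) ≤ U := m2 hs hU hW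
    have a5 : min (((i - (k - U)) / u + 1) * s) W ≤ W := min_le_right _ _
    have a5' : min (((j - (k - U)) / u + 1) * s) W ≤ W := min_le_right _ _
    have n1 : i < W → i + u * (i / s) ≠
      (j - (k - U)) + min (((j - (k - U)) / u + 1) * s) W := NH1 hs hu
    have n2 : j - k < W → (j - k) + u * ((j - k) / s) ≠
      (i - (k - U)) + min (((i - (k - U)) / u + 1) * s) W := NH1 hs hu
    unfold ee at h'
    split_ifs at h' <;> omega

end

theorem multi_step {k n : ℕ} (hk : 1 ≤ k) {a : ℕ → ℤ} (hm : ∀ i, i < n → a i < a (i + 1))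
    (hh : ¬ Hits k n a) (s : ℕ) : ∀ i, i + s * k ≤ n → a i + 2 * (s * k : ℕ) ≤ a (i + s * k) := by
  induction s with
  | zero => intro i _; simp
  | succ s ih =>
    intro i hi
    have e1 : (s + 1) * k = s * k + k := by ring
    rw [e1] at hi ⊢
    have h1 := ih i (by omega)
    have h2 := big_step hk hm hh (i + s * k) (by omega)
    rw [← Nat.add_assoc]
    push_cast at h1 ⊢
    linarith

/-- the extremal sequence -/
def sq0 (k i : ℕ) : ℤ := ((i + k * (i / k) : ℕ) : ℤ)

theorem lower0 {b c k s n : ℕ} (hk : 1 ≤ k) (hc : b + s * k ≤ c) (hn : n < (s + 1) * k) :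
    Acceptable b c n (sq0 k) ∧ ¬ Hits k n (sq0 k) := by
  refine ⟨⟨?_, ?_, ?_⟩, ?_⟩
  · simp [sq0]
  · intro i _
    have h1 : k * (i / k) ≤ k * ((i + 1) / k) :=
      Nat.mul_le_mul_left k (Nat.div_le_div_right (by omega))
    simp only [sq0]
    exact_mod_cast (by omega : i + k * (i / k) < i + 1 + k * ((i + 1) / k))
  · intro i hi
    have h1 : (i + b) / k ≤ s := Nat.lt_succ_iff.1 ((Nat.div_lt_iff_lt_mul hk).2 (by
      rw [Nat.succ_eq_add_one]; omega))
    have h2 : k * ((i + b) / k) ≤ s * k := by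
      rw [Nat.mul_comm s k]
      exact Nat.mul_le_mul_left k h1
    simp only [sq0]
    exact_mod_cast (by omega : i + b + k * ((i + b) / k) ≤ i + k * (i / k) + c)
  · rintro ⟨i, j, hij, -, h⟩
    simp only [sq0] at h
    have h' : j + k * (j / k) = i + k * (i / k) + k := by exact_mod_cast h
    have hi := Nat.div_add_mod i k
    have hj := Nat.div_add_mod j k
    have hi2 := Nat.mod_lt i hk
    have hj2 := Nat.mod_lt j hk
    generalize i / k = x at *
    generalize j / k = y at *
    rcases Nat.lt_or_ge x y with h1 | h1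
    · have h2 : k * (x + 1) ≤ k * y := Nat.mul_le_mul_left k h1
      rw [Nat.mul_add, Nat.mul_one] at h2
      omega
    · have h2 : k * y ≤ k * x := Nat.mul_le_mul_left k h1
      omega


/-! ### the periodic extension -/

/-- the `2k`-periodic extension of the extremal sequence -/
def sp (k s u U W i : ℕ) : ℤ := sq k s u U W (i % k) + 2 * ((k * (i / k) : ℕ) : ℤ)

section
variable {k s u q U W : ℕ} (hs : 1 ≤ s) (hu : 1 ≤ u) (hU : U = (q + 1) * u)
  (hW : W ≤ (q + 1) * s) (hk : U + W + u ≤ k)

theorem sp_lt {i : ℕ} (hi : i < k) : sp k s u U W i = sq k s u U W i := by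
  unfold sp
  rw [Nat.mod_eq_of_lt hi, Nat.div_eq_of_lt hi]
  simp

theorem sp_add (hk0 : 0 < k) (p i : ℕ) :
    sp k s u U W (i + p * k) = sp k s u U W i + 2 * ((p * k : ℕ) : ℤ) := by
  unfold sp
  rw [Nat.add_mul_mod_self_right, Nat.add_mul_div_right _ _ hk0]
  push_cast
  ring

include hs hk in
theorem sp_eq {i : ℕ} (hi : i < k + W) : sp k s u U W i = sq k s u U W i := by
  rcases Nat.lt_or_ge i k with h1 | h1
  · exact sp_lt h1
  · obtain ⟨x, rfl⟩ := Nat.exists_eq_add_of_le' h1
    have h2 := sp_add (s := s) (u := u) (U := U) (W := W) (show 0 < k by omega) 1 x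
    rw [Nat.one_mul] at h2
    rw [h2, sp_lt (by omega)]
    unfold sq
    have h3 : ee k s u U W (x + k) = k + u * (x / s) := by
      unfold ee
      rw [if_neg (by omega), if_neg (by omega), if_neg (by omega), Nat.add_sub_cancel]
    have h4 : ee k s u U W x = u * (x / s) := by
      unfold ee
      rw [if_pos (by omega)]
    rw [h3, h4]
    push_cast
    ring

include hs hu hU hW hk in
theorem lower2 {b c n p : ℕ} (hb1 : 1 ≤ b) (hb : b + s = k) (hc : c + u + s = 2 * k)
    (hn : n < k + W + p * k) :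
    Acceptable (b + p * k) (c + 2 * (p * k)) n (sp k s u U W) ∧ ¬ Hits k n (sp k s u U W) := by
  have hk0 : 0 < k := by omega
  obtain ⟨⟨c0, c1, c2⟩, c3⟩ := lower hs hu hU hW hk hb hc (n := k + W - 1) (by omega)
  have hv : ∀ i, i < k → 0 ≤ sq k s u U W i ∧ sq k s u U W i < 2 * k := by
    intro i hi
    have h1 := mono_of c1 i 0 (by omega) (by omega)
    have h2 := E_le hs hU hW hk hi
    rw [c0] at h1
    refine ⟨by omega, ?_⟩
    unfold sq
    omega
  refine ⟨⟨?_, ?_, ?_⟩, ?_⟩
  · rw [sp_lt hk0, c0]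
  · intro i _
    have d0 := Nat.div_add_mod i k
    have d1 := Nat.mod_lt i hk0
    have e1 : sp k s u U W i = sp k s u U W (i % k + (i / k) * k) := by
      congr 1
      rw [Nat.mul_comm]
      omega
    have e2 : sp k s u U W (i + 1) = sp k s u U W (i % k + 1 + (i / k) * k) := by
      congr 1
      rw [Nat.mul_comm (i / k) k]
      omega
    rw [e1, e2, sp_add hk0, sp_add hk0]
    rcases Nat.lt_or_ge (i % k + 1) k with h1 | h1
    · rw [sp_lt d1, sp_lt h1]
      have := c1 (i % k) (by omega)
      omega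
    · have h2 : i % k + 1 = 0 + 1 * k := by omega
      rw [h2, sp_add hk0, sp_lt d1, sp_lt hk0]
      have h3 := hv (i % k) d1
      have h4 := hv 0 hk0
      rw [Nat.one_mul]
      omega
  · intro i hi
    rw [← Nat.add_assoc, sp_add hk0, sp_eq hs hk (by omega), sp_eq hs hk (by omega)]
    have := c2 i (by omega)
    push_cast
    push_cast at this
    linarith
  · rintro ⟨i, j, -, -, h⟩
    have d1 := Nat.mod_lt i hk0
    have d2 := Nat.mod_lt j hk0
    have h1 := hv _ d1
    have h2 := hv _ d2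
    have nh : ∀ x y, x < k → y < k → sq k s u U W y ≠ sq k s u U W x + k := by
      intro x y hx hy he
      exact c3 ⟨x, y, lt_of c1 (by omega) (by omega) (by omega), by omega, he⟩
    have n1 := nh _ _ d1 d2
    have n2 := nh _ _ d2 d1
    unfold sp at h
    generalize i / k = x at *
    generalize j / k = y at *
    rcases Nat.lt_trichotomy x y with h3 | h3 | h3
    · have h4 : k * (x + 1) ≤ k * y := Nat.mul_le_mul_left k h3
      rcases Nat.eq_or_lt_of_le h4 with h5 | h5
      · have h6 : k * (x + 1) = k * x + k := by ring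
        omega
      · have h6 : x + 1 < y := lt_of_mul_lt_mul_left h5 (Nat.zero_le k)
        have h7 : k * (x + 2) ≤ k * y := Nat.mul_le_mul_left k h6
        have h8 : k * (x + 2) = k * x + 2 * k := by ring
        omega
    · subst h3
      omega
    · have h4 : k * (y + 1) ≤ k * x := Nat.mul_le_mul_left k h3
      have h6 : k * (y + 1) = k * y + k := by ring
      omega

end

/-! ### the theorem -/

/-- The value of `N(b, c, k)` for `b ≤ c < 2b`. Let `s = ⌈b / k⌉ - 1`, `β = b - s k` (so
`1 ≤ β ≤ k`) and `d = c - b`. If `d < s k` the value is `b`. Otherwise put `D = d - s k`,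
`y = max(2 D - k, 0)` and `P = 2 k - β - D`; the value is
`(s + 1) k + ⌊y / P⌋ (k - β) + min (k - β) (y mod P)`. -/
def val (b c k : ℕ) : ℕ :=
  if c - b < ((b - 1) / k) * k then b
  else ((b - 1) / k + 1) * k +
    ((2 * (c - b - ((b - 1) / k) * k) - k) /
      (2 * k - (b - ((b - 1) / k) * k) - (c - b - ((b - 1) / k) * k))) *
        (k - (b - ((b - 1) / k) * k)) +
    min (k - (b - ((b - 1) / k) * k))
      ((2 * (c - b - ((b - 1) / k) * k) - k) %
        (2 * k - (b - ((b - 1) / k) * k) - (c - b - ((b - 1) / k) * k)))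

theorem red {b c k n p : ℕ} (hk : 1 ≤ k) (h : AllHit b c k n) :
    AllHit (b + p * k) (c + 2 * (p * k)) k (n + p * k) := by
  intro a ⟨a0, a1, a2⟩
  by_contra hH
  have ms := multi_step hk a1 hH p
  have hH' : ¬ Hits k n a := fun ⟨i, j, hij, hj, e⟩ => hH ⟨i, j, hij, by omega, e⟩
  refine hH' (h a ⟨a0, fun i hi => a1 i (by omega), fun i hi => ?_⟩)
  have h1 := a2 i (by omega)
  have h2 := ms (i + b) (by omega)
  rw [← Nat.add_assoc] at h1
  push_cast at h1 h2
  linarith

theorem caseA {b c k s : ℕ} (hk : 1 ≤ k) (hb : 1 ≤ b) (h1 : s * k < b) (hbc : b ≤ c)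
    (h2 : c - b < s * k) (n : ℕ) : AllHit b c k n ↔ b ≤ n := by
  constructor
  · intro h
    by_contra hlt
    obtain ⟨i, j, hij, hj, he⟩ := h (fun i => (i : ℤ) * (k + 1))
      ⟨by simp, fun i _ => by push_cast; nlinarith, fun i hi => by omega⟩
    simp only at he
    have h3 : (i : ℤ) + 1 ≤ j := by exact_mod_cast hij
    have h4 : ((i : ℤ) + 1) * (k + 1) ≤ j * (k + 1) :=
      mul_le_mul_of_nonneg_right h3 (by positivity)
    nlinarith
  · intro hn a ⟨a0, a1, a2⟩
    by_contra hH
    have ms := multi_step hk a1 hH s 0 (by omega)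
    have m1 := mono_of a1 b (s * k) (by omega) hn
    have m2 := a2 0 (by omega)
    rw [a0, Nat.zero_add] at ms m2
    generalize s * k = S at *
    omega

theorem main {b c k s B D y P q r : ℕ} (hk : 1 ≤ k) (hB1 : 1 ≤ B) (hBk : B ≤ k)
    (hb : b = B + s * k) (hc : c = B + D + 2 * (s * k)) (hDB : D < B) (hy : y = 2 * D - k)
    (hP : P + B + D = 2 * k) (hyq : y = q * P + r) (hr : r < P) (n : ℕ) :
    AllHit b c k n ↔ (s + 1) * k + q * (k - B) + min (k - B) r ≤ n := by
  have e0 : (s + 1) * k = s * k + k := by ring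
  have e1 : P = (k - D) + (k - B) := by omega
  have e2 : q * P = q * (k - D) + q * (k - B) := by rw [e1]; ring
  have e3 : (q + 1) * (k - D) = q * (k - D) + (k - D) := by ring
  have e4 : (q + 1 + 1) * (k - D) = q * (k - D) + 2 * (k - D) := by ring
  have e5 : (q + 1) * (k - B) = q * (k - B) + (k - B) := by ring
  constructor
  · intro h
    by_contra hlt
    by_cases hcase : y = 0 ∨ B = k
    · have hz : q * (k - B) + min (k - B) r = 0 := by
        rcases hcase with h0 | h0
        · have hq : q * P = 0 := by omega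
          have hr0 : r = 0 := by omega
          have hq0 : q = 0 := by
            rcases Nat.mul_eq_zero.1 hq with h5 | h5
            · exact h5
            · omega
          simp [hq0, hr0]
        · simp [h0]
      have h1 := lower0 (b := b) (c := c) (k := k) (s := s) (n := n) hk (by omega) (by omega)
      exact h1.2 (h _ h1.1)
    · push Not at hcase
      have h1 := lower2 (k := k) (s := k - B) (u := k - D) (q := q)
        (U := (q + 1) * (k - D)) (W := q * (k - B) + min (k - B) r) (b := B) (c := B + D) (n := n)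
        (p := s) (by omega) (by omega) rfl (by omega) (by omega) hB1 (by omega) (by omega)
        (by omega)
      rw [← hb, ← hc] at h1
      exact h1.2 (h _ h1.1)
  · intro h
    have h2 : AllHit B (B + D) k (n - s * k) := by
      rcases Nat.lt_or_ge r (k - B) with h1 | h1
      · rw [min_eq_right h1.le] at h
        refine upper (m := q) (w := q * (k - B) + r) hB1 (by omega) (by omega) hBk
          (by omega) ?_ (by omega)
        rw [show k + B - (B + D) = k - D by omega]
        omega
      · rw [min_eq_left h1] at h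
        refine upper (m := q + 1) (w := q * (k - B) + (k - B)) hB1 (by omega) (by omega) hBk
          (by omega) ?_ (by omega)
        rw [show k + B - (B + D) = k - D by omega]
        omega
    have h3 := red (p := s) hk h2
    rw [← hb, ← hc, Nat.sub_add_cancel (by omega)] at h3
    exact h3

/-- **The case `c < 2b` in full**: the value of `N(b, c, k)` for all `1 ≤ b ≤ c < 2b`, `k ≥ 1`. -/
theorem result : ∀ b c k : ℕ, 1 ≤ b → b ≤ c → c < 2 * b → 1 ≤ k →
    (∀ n, AllHit b c k n ↔ val b c k ≤ n) ∧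
      IsLeast {n : ℕ | 1 ≤ n ∧ AllHit b c k n} (val b c k) := by
  intro b c k hb hbc hc hk
  have hs1 : ((b - 1) / k) * k ≤ b - 1 := Nat.div_mul_le_self _ _
  have hs2 : b - 1 < ((b - 1) / k) * k + k := by
    have h1 := Nat.div_add_mod (b - 1) k
    have h2 := Nat.mod_lt (b - 1) hk
    rw [Nat.mul_comm] at h1
    omega
  have key : (∀ n, AllHit b c k n ↔ val b c k ≤ n) ∧ 1 ≤ val b c k := by
    unfold val
    generalize (b - 1) / k = s at *
    have e0 : (s + 1) * k = s * k + k := by ring
    split_ifs with h1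
    · exact ⟨caseA hk hb (by omega) hbc h1, hb⟩
    · refine ⟨?_, by omega⟩
      intro n
      refine main (y := 2 * (c - b - s * k) - k) (P := 2 * k - (b - s * k) - (c - b - s * k))
        (D := c - b - s * k) hk (by omega) (by omega) (by omega) (by omega) (by omega) rfl
        (by omega) ?_ (Nat.mod_lt _ (by omega)) n
      exact (Nat.div_add_mod' _ _).symm
  refine ⟨key.1, ⟨key.2, (key.1 _).2 le_rfl⟩, ?_⟩
  intro n hn
  exact (key.1 n).1 hn.2

end Pool.Agent.Results.MP_25dd1e_co.BelowTwoB
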